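import Mathlib

/-!
# Project AL: elementary lemmas for AH2
-/

set_option autoImplicit false

open Real

namespace Pool.Agent.Q203.AL

theorem core {o : ℕ → ℝ} {c A : ℝ} {n m : ℕ} (hnm : n ≤ m)
    (h : ∀ j, n ≤ j → j < m → ∃ k : ℤ, |A * (o (j + 1) - o j) - 2 * π * k| ≤
      c * (o (j + 1) - o j)) :
    ∃ K : ℤ, |A * (o m - o n) - 2 * π * K| ≤ c * (o m - o n) := by
  induction m, hnm using Nat.le_induction with
  | base => exact ⟨0, by simp⟩
  | succ m hm ih =>
    obtain ⟨K, hK⟩ := ih fun j h1 h2 => h j h1 (by omega)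
    obtain ⟨k, hk⟩ := h m hm (by omega)
    refine ⟨K + k, ?_⟩
    have e : A * (o (m + 1) - o n) - 2 * π * ((K + k : ℤ) : ℝ) =
        (A * (o m - o n) - 2 * π * K) + (A * (o (m + 1) - o m) - 2 * π * k) := by
      push_cast
      ring
    rw [e]
    calc _ ≤ |A * (o m - o n) - 2 * π * K| + |A * (o (m + 1) - o m) - 2 * π * k| := abs_add_le _ _
      _ ≤ c * (o m - o n) + c * (o (m + 1) - o m) := add_le_add hK hk
      _ = c * (o (m + 1) - o n) := by ring

theorem log_near {X T u L : ℝ} (hX : 0 < X) (hT : X ≤ T) (hu : X / 2 ≤ u)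
    (hut : |u - T| ≤ L ^ 2) : |log T - log u| ≤ 2 * L ^ 2 / X := by
  have hu0 : 0 < u := by linarith
  have hT0 : 0 < T := by linarith
  have h1 : ∀ x y : ℝ, 0 < x → 0 < y → X / 2 ≤ y → |x - y| ≤ L ^ 2 →
      log x - log y ≤ 2 * L ^ 2 / X := by
    intro x y hx hy hyX hxy
    have h2 : log x - log y ≤ x / y - 1 := by
      rw [← log_div hx.ne' hy.ne']
      exact log_le_sub_one_of_pos (by positivity)
    have h3 : x / y - 1 = (x - y) / y := by
      field_simp
    have h4 : (x - y) / y ≤ L ^ 2 / y := by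
      apply div_le_div_of_nonneg_right _ hy.le
      exact (le_abs_self _).trans hxy
    have h5 : L ^ 2 / y ≤ L ^ 2 / (X / 2) := by
      apply div_le_div_of_nonneg_left (sq_nonneg L) (by positivity) hyX
    have h6 : L ^ 2 / (X / 2) = 2 * L ^ 2 / X := by
      field_simp
    linarith
  rw [abs_le]
  constructor
  · have := h1 u T hu0 hT0 (by linarith) hut
    linarith
  · exact h1 T u hT0 hu0 hu (by rwa [abs_sub_comm])

theorem rpow_bd {L y : ℝ} (hL : 2 ≤ L) (hy : L / 2 ≤ y) :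
    y ^ (-(3 / 2) : ℝ) ≤ 3 / (L * √L) := by
  have hL0 : 0 < L := by linarith
  have h1 : y ^ (-(3 / 2) : ℝ) ≤ (L / 2) ^ (-(3 / 2) : ℝ) :=
    rpow_le_rpow_of_nonpos (by positivity) hy (by norm_num)
  refine h1.trans ?_
  have h2 : (L / 2) ^ (3 / 2 : ℝ) = (L / 2) * √(L / 2) := by
    rw [show (3 / 2 : ℝ) = 1 + 1 / 2 by norm_num, rpow_add (by positivity), rpow_one,
      sqrt_eq_rpow]
  rw [rpow_neg (by positivity), h2, sqrt_div' _ (by norm_num : (0 : ℝ) ≤ 2)]
  have h3 : 0 < √L := sqrt_pos.2 hL0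
  have h4 : 0 < √(2 : ℝ) := sqrt_pos.2 (by norm_num)
  have h5 : √(2 : ℝ) ≤ 3 / 2 := by
    rw [sqrt_le_left (by norm_num)]
    norm_num
  rw [← one_div, div_le_div_iff₀ (by positivity) (by positivity)]
  have h6 : 3 * (L / 2 * (√L / √2)) = (3 / (2 * √2)) * (L * √L) := by
    field_simp
  rw [h6]
  have h7 : 1 ≤ 3 / (2 * √(2 : ℝ)) := by
    rw [le_div_iff₀ (by positivity)]
    linarith
  exact mul_le_mul_of_nonneg_right h7 (by positivity)

theorem step {X T u v a ε L : ℝ} {k : ℕ} (hL : L = log X) (hL2 : 2 ≤ L) (hX : 0 < X)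
    (hT : X ≤ T) (hu : X / 2 ≤ u) (hut : |u - T| ≤ L ^ 2) (hε : 0 ≤ ε) (hsp : 1 / L ≤ v - u)
    (hk : |(v - u) * (log u + a) / (2 * π) - k / 2| ≤ ε * (log u) ^ (-(3 / 2) : ℝ)) :
    |2 * (log T + a) * (v - u) - 2 * π * k| ≤ (12 * π * ε / √L + 4 * L ^ 2 / X) * (v - u) := by
  have hL0 : 0 < L := by linarith
  have hπ : 0 < π := pi_pos
  have hd : 0 < v - u := lt_of_lt_of_le (by positivity) hsp
  have hlu : L / 2 ≤ log u := by
    have h1 : log (X / 2) ≤ log u := log_le_log (by positivity) hu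
    rw [log_div hX.ne' (by norm_num), ← hL] at h1
    have := log_two_lt_d9
    linarith
  have h2 := rpow_bd hL2 hlu
  have hsL : 0 < √L := sqrt_pos.2 hL0
  have h3 : ε * (log u) ^ (-(3 / 2) : ℝ) ≤ ε * (3 / (L * √L)) := mul_le_mul_of_nonneg_left h2 hε
  have h4 : |2 * (log u + a) * (v - u) - 2 * π * k| ≤ 4 * π * (ε * (3 / (L * √L))) := by
    have e : 2 * (log u + a) * (v - u) - 2 * π * k =
        4 * π * ((v - u) * (log u + a) / (2 * π) - k / 2) := by
      field_simp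
      ring
    rw [e, abs_mul, abs_of_pos (by positivity : (0 : ℝ) < 4 * π)]
    exact mul_le_mul_of_nonneg_left (hk.trans h3) (by positivity)
  have h5 : 4 * π * (ε * (3 / (L * √L))) ≤ 12 * π * ε / √L * (v - u) := by
    have e : 4 * π * (ε * (3 / (L * √L))) = 12 * π * ε / √L * (1 / L) := by
      field_simp
      ring
    rw [e]
    exact mul_le_mul_of_nonneg_left hsp (by positivity)
  have h6 := log_near hX hT hu hut
  have h7 : |2 * (log T - log u) * (v - u)| ≤ 4 * L ^ 2 / X * (v - u) := by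
    rw [abs_mul, abs_of_pos hd, abs_mul, abs_of_pos (by norm_num : (0 : ℝ) < 2)]
    have : 2 * |log T - log u| ≤ 4 * L ^ 2 / X := by
      calc 2 * |log T - log u| ≤ 2 * (2 * L ^ 2 / X) := mul_le_mul_of_nonneg_left h6 (by norm_num)
        _ = 4 * L ^ 2 / X := by ring
    exact mul_le_mul_of_nonneg_right this hd.le
  have e : 2 * (log T + a) * (v - u) - 2 * π * k =
      (2 * (log u + a) * (v - u) - 2 * π * k) + 2 * (log T - log u) * (v - u) := by ring
  rw [e]
  calc _ ≤ |2 * (log u + a) * (v - u) - 2 * π * k| + |2 * (log T - log u) * (v - u)| :=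
        abs_add_le _ _
    _ ≤ 12 * π * ε / √L * (v - u) + 4 * L ^ 2 / X * (v - u) := add_le_add (h4.trans h5) h7
    _ = _ := by ring

theorem exp_near {x B : ℝ} {K : ℤ} (h : |x - 2 * π * K| ≤ B) :
    ‖Complex.exp ((x : ℂ) * Complex.I) - 1‖ ≤ B := by
  have e : Complex.exp ((x : ℂ) * Complex.I) =
      Complex.exp (Complex.I * ((x - 2 * π * K : ℝ) : ℂ)) := by
    rw [show (x : ℂ) * Complex.I = Complex.I * ((x - 2 * π * K : ℝ) : ℂ) +
      K * (2 * π * Complex.I) by push_cast; ring, Complex.exp_add,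
      Complex.exp_int_mul_two_pi_mul_I, mul_one]
  rw [e]
  refine (Real.norm_exp_I_mul_ofReal_sub_one_le).trans ?_
  rwa [Real.norm_eq_abs]

end Pool.Agent.Q203.AL
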