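import Pool.Agent.Q72.AL.Stm3
import Pool.Agent.Q203.AL.AH2a

/-!
# Project AL: the job AH2W (a single window)
-/

set_option autoImplicit false

open Complex MeasureTheory Filter Topology Set
open H345 (Zo aa XX)

namespace Pool.Agent.Q203.AL

open Pool.Agent.Q72.AL

lemma spw_mono {a ε ε' X : ℝ} (h : ε ≤ ε') (hX : 4 ≤ X) (hS : SPW a ε X) : SPW a ε' X := by
  intro n hn h1 h2
  obtain ⟨k, hk1, hk2⟩ := hS n hn h1 h2
  refine ⟨k, hk1, hk2.trans (mul_le_mul_of_nonneg_right h (Real.rpow_nonneg ?_ _))⟩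
  exact Real.log_nonneg (by linarith)

theorem ah2w (h1 : J_ENUM) (h2 : J_AH1W) : J_AH2W := by
  intro hRH a δ hδ
  obtain ⟨E1, E2, -⟩ := h1 hRH
  obtain ⟨X1, hX1⟩ := h2 hRH a
  have hπ := Real.pi_pos
  set ε : ℝ := min (δ / (24 * Real.pi)) (1 / 8) with hε
  have hε0 : 0 < ε := lt_min (by positivity) (by norm_num)
  have hε1 : ε ≤ δ / (24 * Real.pi) := min_le_left _ _
  have hε3 : ε ≤ 1 / 8 := min_le_right _ _
  have hε2 : ε ≤ 1 / 4 := by linarith
  have A1 : ∀ᶠ X : ℝ in atTop, Real.log X ^ 3 ≤ δ / 8 * X := by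
    have := (Real.isLittleO_pow_log_id_atTop (n := 3)).bound (by positivity : (0 : ℝ) < δ / 8)
    filter_upwards [this, eventually_ge_atTop 1] with X hX hX1
    have h0 : 0 ≤ Real.log X ^ 3 := by
      have := Real.log_nonneg hX1
      positivity
    rw [Real.norm_eq_abs, abs_of_nonneg h0, id, Real.norm_eq_abs, abs_of_nonneg (by linarith)] at hX
    exact hX
  have A2 : ∀ᶠ X : ℝ in atTop, Real.log X ^ 2 ≤ 1 / 4 * X := by
    have := (Real.isLittleO_pow_log_id_atTop (n := 2)).bound (by norm_num : (0 : ℝ) < 1 / 4)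
    filter_upwards [this, eventually_ge_atTop 1] with X hX hX1
    have h0 : 0 ≤ Real.log X ^ 2 := by
      have := Real.log_nonneg hX1
      positivity
    rw [Real.norm_eq_abs, abs_of_nonneg h0, id, Real.norm_eq_abs, abs_of_nonneg (by linarith)] at hX
    exact hX
  have A3 : ∀ᶠ X : ℝ in atTop, 2 ≤ Real.log X := Real.tendsto_log_atTop.eventually_ge_atTop 2
  obtain ⟨X0, hX0'⟩ := eventually_atTop.1 (A1.and (A2.and (A3.and
    ((eventually_ge_atTop X1).and (eventually_ge_atTop 4)))))
  refine ⟨ε, X0, hε0, fun X hXX hSP => ?_⟩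
  obtain ⟨B1, B2, B3, B4, B5⟩ := hX0' X hXX
  set L : ℝ := Real.log X with hL
  have hX0 : 0 < X := by linarith
  have hL0 : 0 < L := by linarith
  have hsL : 0 < √L := Real.sqrt_pos.2 hL0
  have hsL1 : √L ≤ L := by
    rw [Real.sqrt_le_left hL0.le]
    nlinarith
  -- the constant
  have hc : 12 * Real.pi * ε / √L + 4 * L ^ 2 / X ≤ δ / √L := by
    have c1 : 12 * Real.pi * ε / √L ≤ δ / 2 / √L := by
      apply div_le_div_of_nonneg_right _ hsL.le
      calc 12 * Real.pi * ε ≤ 12 * Real.pi * (δ / (24 * Real.pi)) :=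
            mul_le_mul_of_nonneg_left hε1 (by positivity)
        _ = δ / 2 := by
            field_simp
            ring
    have c2 : 4 * L ^ 2 / X ≤ δ / 2 / √L := by
      rw [div_le_div_iff₀ hX0 hsL]
      calc 4 * L ^ 2 * √L ≤ 4 * L ^ 2 * L := mul_le_mul_of_nonneg_left hsL1 (by positivity)
        _ = 4 * L ^ 3 := by ring
        _ ≤ 4 * (δ / 8 * X) := by linarith
        _ = δ / 2 * X := by ring
    calc _ ≤ δ / 2 / √L + δ / 2 / √L := add_le_add c1 c2
      _ = δ / √L := by ring
  obtain ⟨S1, S2⟩ := hX1 X B4 (spw_mono hε3 B5 hSP)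
  have key : ∀ T : ℝ, X ≤ T → T ≤ 2 * X → ∀ t ∈ Zo, ∀ t' ∈ Zo, |t - T| ≤ L ^ 2 →
      |t' - T| ≤ L ^ 2 → t < t' → ∃ K : ℤ,
        |2 * (Real.log T + a) * (t' - t) - 2 * Real.pi * K| ≤ δ / √L * (t' - t) := by
    intro T hT1 hT2 t ht t' ht' d1 d2 htt
    have t1 := abs_le.1 d1
    have t2 := abs_le.1 d2
    have tX : X / 2 ≤ t := by linarith
    have tX' : t' ≤ 3 * X := by linarith
    obtain ⟨n, hn1, hn⟩ := E2 t ht (by linarith)
    obtain ⟨m, hm1, hm⟩ := E2 t' ht' (by linarith)
    have hnm : n < m := by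
      by_contra hcon
      have := SG.ord_mono hm1 (not_lt.1 hcon)
      rw [hn, hm] at this
      linarith
    have hc' := core (o := SG.ord) (c := 12 * Real.pi * ε / √L + 4 * L ^ 2 / X)
      (A := 2 * (Real.log T + a)) hnm.le (by
        intro j hj1 hj2
        have hj0 : 1 ≤ j := hn1.trans hj1
        have m1 : t ≤ SG.ord j := hn ▸ SG.ord_mono hn1 hj1
        have m2 : SG.ord j ≤ SG.ord (j + 1) := SG.ord_mono hj0 (by omega)
        have m3 : SG.ord (j + 1) ≤ t' := hm ▸ SG.ord_mono (by omega) (by omega)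
        obtain ⟨k, hk1, hk⟩ := hSP j hj0 (by linarith) (by linarith)
        have hlu : L / 2 ≤ Real.log (SG.ord j) := by
          have h1 : Real.log (X / 2) ≤ Real.log (SG.ord j) :=
            Real.log_le_log (by positivity) (by linarith)
          rw [Real.log_div hX0.ne' (by norm_num), ← hL] at h1
          have := Real.log_two_lt_d9
          linarith
        have hrp : Real.log (SG.ord j) ^ (-(3 / 2) : ℝ) ≤ 1 := by
          apply Real.rpow_le_one_of_one_le_of_nonpos _ (by norm_num)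
          linarith
        have hlt : SG.ord j < SG.ord (j + 1) := by
          rcases m2.lt_or_eq with h | h
          · exact h
          · exfalso
            rw [← h, sub_self, zero_mul, zero_div, zero_sub, abs_neg,
              abs_of_nonneg (by positivity)] at hk
            have hk1' : (1 : ℝ) ≤ k := by exact_mod_cast hk1
            have : ε * Real.log (SG.ord j) ^ (-(3 / 2) : ℝ) ≤ 1 / 4 * 1 :=
              mul_le_mul hε2 hrp (Real.rpow_nonneg (by linarith) _) (by norm_num)
            linarith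
        have hsp := S2 (SG.ord j) (E1 j hj0) (SG.ord (j + 1)) (E1 (j + 1) (by omega))
          (by linarith) hlt (by linarith)
        have hut : |SG.ord j - T| ≤ L ^ 2 := by
          rw [abs_le]
          constructor <;> linarith
        exact ⟨k, by exact_mod_cast step hL B3 hX0 hT1 (by linarith) hut hε0.le hsp hk⟩)
    obtain ⟨K, hK⟩ := hc'
    rw [hn, hm] at hK
    exact ⟨K, hK.trans (mul_le_mul_of_nonneg_right hc (by linarith))⟩
  refine ⟨S1, S2, ?_⟩
  intro T hT1 hT2 t ht t' ht' d1 d2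
  rcases lt_trichotomy t t' with h | h | h
  · obtain ⟨K, hK⟩ := key T hT1 hT2 t ht t' ht' d1 d2 h
    have h3 : |t - t'| = t' - t := by
      rw [abs_sub_comm, abs_of_pos (by linarith)]
    rw [h3]
    apply exp_near (K := -K)
    have e : 2 * (Real.log T + a) * (t - t') - 2 * Real.pi * ((-K : ℤ) : ℝ) =
        -(2 * (Real.log T + a) * (t' - t) - 2 * Real.pi * K) := by
      push_cast
      ring
    rw [e, abs_neg]
    exact hK
  · subst h
    simp
  · obtain ⟨K, hK⟩ := key T hT1 hT2 t' ht' t ht d2 d1 h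
    have h3 : |t - t'| = t - t' := abs_of_pos (by linarith)
    rw [h3]
    exact exp_near hK

end Pool.Agent.Q203.AL
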